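import Pool.Agent.H234Z.Cov6

/-! For a uniformly random subset `A` of `ZMod p` with `Nat.sqrt p` elements, the probability that
`ZMod p` is covered by at most `101 * Nat.sqrt p / 100` translates of `A` tends to `0`. -/

set_option autoImplicit false

open Finset Pointwise

namespace Pool.Agent.Results.MP_cb22e8_co.NotCovered

open Classical in
theorem result : ∀ ε : ℝ, 0 < ε → ∃ N : ℕ, ∀ (p : ℕ) [Fact p.Prime], N ≤ p →
    ((((univ : Finset (ZMod p)).powersetCard (Nat.sqrt p)).filter fun A =>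
        ∃ T : Finset (ZMod p), T.card ≤ 101 * Nat.sqrt p / 100 ∧ A + T = univ).card : ℝ) /
      (((univ : Finset (ZMod p)).powersetCard (Nat.sqrt p)).card : ℝ) ≤ ε := by
  intro ε hε
  obtain ⟨n, hn⟩ := exists_pow_lt_of_lt_one (show 0 < ε / 29 by positivity)
    (show (1 / 2 : ℝ) < 1 by norm_num)
  refine ⟨((max n 10000) ^ 60) ^ 2, fun p _ hp => ?_⟩
  obtain ⟨w, hw, P⟩ := Pool.Agent.H234Z.Cov.exists_par _ p (le_max_right _ _) hp
  have hc : Fintype.card (ZMod p) = p := ZMod.card p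
  have P' : Pool.Agent.H234Z.Cov.Par w p.sqrt (Fintype.card (ZMod p)) := by rwa [hc]
  have h1 := Pool.Agent.H234Z.Cov.cover_count P'
  have h2 : (0 : ℝ) < (Fintype.card (ZMod p)).choose p.sqrt := by
    exact_mod_cast Nat.choose_pos P'.kp
  have h3 : (1 / 2 : ℝ) ^ w ≤ (1 / 2) ^ n :=
    pow_le_pow_of_le_one (by norm_num) (by norm_num) ((le_max_left _ _).trans hw)
  rw [card_powersetCard, card_univ, div_le_iff₀ h2]
  refine le_trans (Nat.cast_le.2 (card_le_card fun A hA => ?_)) (h1.trans ?_)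
  · rw [mem_filter] at hA ⊢
    obtain ⟨hA, T, hT, hAT⟩ := hA
    refine ⟨hA, T, by omega, fun x => ?_⟩
    have hx : x ∈ A + T := by rw [hAT]; exact mem_univ _
    obtain ⟨a, ha, t, ht, rfl⟩ := mem_add.1 hx
    exact ⟨t, ht, by simpa using ha⟩
  · gcongr
    rw [lt_div_iff₀ (by norm_num)] at hn
    linarith

end Pool.Agent.Results.MP_cb22e8_co.NotCovered
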